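import Pool.Agent.N236.RT.Stm

/-!
# Pairwise coprime translates (part TLP)
-/

set_option autoImplicit false

namespace Pool.Agent.N84.RT

open MvPolynomial Pool.Agent.N236.RT

lemma tr_monomial {R : Type*} [CommSemiring R] (ζ : Fin 2 → R) (m : Fin 2 →₀ ℕ) (c : R) :
    tr ζ (monomial m c) = monomial m (c * ∏ j, ζ j ^ m j) := by
  unfold tr
  rw [aeval_monomial, Finsupp.prod_fintype _ _ (by intro i; exact pow_zero _)]
  simp only [mul_pow, Finset.prod_mul_distrib]
  rw [monomial_eq (s := m), Finsupp.prod_fintype _ _ (by intro i; exact pow_zero _)]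
  rw [algebraMap_eq]
  simp only [map_mul, map_prod, map_pow]
  ring

lemma tr_add {R : Type*} [CommSemiring R] (ζ : Fin 2 → R) (P Q : Pol R) :
    tr ζ (P + Q) = tr ζ P + tr ζ Q := by
  unfold tr
  rw [map_add]

lemma coeff_tr {R : Type*} [CommSemiring R] (ζ : Fin 2 → R) (P : Pol R) (m : Fin 2 →₀ ℕ) :
    coeff m (tr ζ P) = coeff m P * ∏ j, ζ j ^ m j := by
  classical
  induction P using MvPolynomial.induction_on' with
  | monomial n c =>
    rw [tr_monomial, coeff_monomial, coeff_monomial]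
    split_ifs with h
    · rw [h]
    · rw [zero_mul]
  | add p q hp hq => rw [tr_add, coeff_add, hp, hq, coeff_add, add_mul]

lemma tr_expand {R : Type*} [CommSemiring R] (ζ : Fin 2 → R) (i : ℕ) (h : ζ ^ i = 1) (P : Pol R) :
    tr ζ (expand i P) = expand i P := by
  induction P using MvPolynomial.induction_on' with
  | monomial n c =>
    rw [expand_monomial, tr_monomial]
    have h1 : ∀ j, ζ j ^ ((i • n) j) = 1 := by
      intro j
      have h2 : ζ j ^ i = 1 := congrFun h j
      rw [Finsupp.smul_apply, smul_eq_mul, pow_mul, h2, one_pow]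
    simp only [h1, Finset.prod_const_one, mul_one]
  | add p q hp hq => rw [map_add, tr_add, hp, hq]

lemma degreeOf_le_tr {ζ : Fin 2 → Qb} (hζ : ∀ j, ζ j ≠ 0) (F : Pol ℚ) (n : Fin 2) :
    F.degreeOf n ≤ (tr ζ (up F)).degreeOf n := by
  rw [degreeOf_le_iff]
  intro m hm
  refine degreeOf_le_iff.mp (le_refl ((tr ζ (up F)).degreeOf n)) m ?_
  rw [mem_support_iff, coeff_tr]
  unfold up
  rw [coeff_map]
  refine mul_ne_zero ?_ (Finset.prod_ne_zero_iff.mpr fun j _ => pow_ne_zero _ (hζ j))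
  rw [Ne, map_eq_zero]
  exact mem_support_iff.mp hm

lemma up_expand (i : ℕ) (P : Pol ℚ) : up (expand i P) = expand i (up P) := by
  unfold up
  exact map_expand i _ P

lemma degreeOf_expand_le {A B : ℕ} {P : Pol ℚ} (hP : Bd A B P) (i : ℕ) :
    (expand i (up P)).degreeOf 0 ≤ i * A ∧ (expand i (up P)).degreeOf 1 ≤ i * B := by
  classical
  have key : ∀ m ∈ (expand i (up P)).support, ∃ d ∈ P.support, m = i • d := by
    intro m hm
    have h1 : (expand i (up P)) = ∑ d ∈ P.support, monomial (i • d)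
        (algebraMap ℚ Qb (coeff d P)) := by
      conv_lhs => rw [P.as_sum]
      unfold up
      simp only [map_sum, map_monomial, expand_monomial]
    rw [h1] at hm
    obtain ⟨d, hd, hm⟩ := Finset.mem_biUnion.mp (support_sum hm)
    exact ⟨d, hd, Finset.mem_singleton.mp (support_monomial_subset hm)⟩
  constructor
  · rw [degreeOf_le_iff]
    intro m hm
    obtain ⟨d, hd, rfl⟩ := key m hm
    rw [Finsupp.smul_apply, smul_eq_mul]
    exact Nat.mul_le_mul_left _ (hP d hd).1
  · rw [degreeOf_le_iff]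
    intro m hm
    obtain ⟨d, hd, rfl⟩ := key m hm
    rw [Finsupp.smul_apply, smul_eq_mul]
    exact Nat.mul_le_mul_left _ (hP d hd).2

lemma tr_dvd {ζ : Fin 2 → Qb} {P Q : Pol Qb} (h : P ∣ Q) : tr ζ P ∣ tr ζ Q := by
  unfold tr
  exact map_dvd _ h

lemma up_dvd {P Q : Pol ℚ} (h : P ∣ Q) : up P ∣ up Q := by
  unfold up
  exact map_dvd _ h

theorem t_tlp : S_TLP := by
  classical
  intro F P i A B hi hF hP hB hdvd hrel
  have hi0 : 0 < i := hi.pos
  have : NeZero i := ⟨hi0.ne'⟩
  have : NeZero ((i : ℕ) : Qb) := ⟨by exact_mod_cast hi0.ne'⟩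
  set Z : Finset (Fin 2 → Qb) := Fintype.piFinset fun _ => Polynomial.nthRootsFinset i (1 : Qb)
    with hZ
  have hmem : ∀ ζ : Fin 2 → Qb, ζ ∈ Z ↔ ζ ^ i = 1 := by
    intro ζ
    rw [hZ, Fintype.mem_piFinset]
    simp only [Polynomial.mem_nthRootsFinset hi0]
    constructor
    · intro h
      funext j
      exact h j
    · intro h j
      exact congrFun h j
  obtain ⟨ω, hω⟩ := IsAlgClosed.exists_root (Polynomial.cyclotomic i Qb)
    (Polynomial.degree_cyclotomic_pos i Qb hi0).ne'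
  have hprim : IsPrimitiveRoot ω i := (Polynomial.isRoot_cyclotomic_iff (n := i)).mp hω
  have hcard : Z.card = i ^ 2 := by
    rw [hZ, Fintype.card_piFinset_const, hprim.card_nthRootsFinset]
  have hne : ∀ ζ ∈ Z, ∀ j, ζ j ≠ 0 := by
    intro ζ hζ j h0
    have h1 : ζ j ^ i = 1 := congrFun ((hmem ζ).mp hζ) j
    rw [h0, zero_pow hi0.ne'] at h1
    exact zero_ne_one h1
  have hupF : up F ≠ 0 := by
    unfold up
    intro h
    apply hF
    exact (map_injective _ (algebraMap ℚ Qb).injective) (h.trans (map_zero _).symm)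
  have hupP : up P ≠ 0 := by
    unfold up
    intro h
    apply hP
    exact (map_injective _ (algebraMap ℚ Qb).injective) (h.trans (map_zero _).symm)
  have hexp : expand i (up P) ≠ 0 := (expand_ne_zero hi0).mpr hupP
  have htr : ∀ ζ ∈ Z, tr ζ (up F) ≠ 0 := by
    intro ζ hζ h0
    obtain ⟨m, hm⟩ := ne_zero_iff.mp hupF
    have h1 := coeff_tr ζ (up F) m
    rw [h0, coeff_zero] at h1
    exact mul_ne_zero hm (Finset.prod_ne_zero_iff.mpr fun j _ => pow_ne_zero _ (hne ζ hζ j))
      h1.symm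
  have hprod : (∏ ζ ∈ Z, tr ζ (up F)) ∣ expand i (up P) := by
    refine Finset.prod_dvd_of_isRelPrime ?_ ?_
    · intro ζ hζ ξ hξ hne
      exact hrel ζ ξ ((hmem ζ).mp hζ) ((hmem ξ).mp hξ) hne
    · intro ζ hζ
      rw [← tr_expand ζ i ((hmem ζ).mp hζ) (up P), ← up_expand]
      exact tr_dvd (up_dvd hdvd)
  have hdeg : ∀ n : Fin 2, i ^ 2 * F.degreeOf n ≤ (expand i (up P)).degreeOf n := by
    intro n
    obtain ⟨Q, hQ⟩ := hprod
    have hQ0 : Q ≠ 0 := by
      rintro rfl
      exact hexp (by rw [hQ, mul_zero])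
    rw [hQ, degreeOf_mul_eq (Finset.prod_ne_zero_iff.mpr htr) hQ0, degreeOf_prod_eq _ _ htr]
    refine le_trans ?_ (Nat.le_add_right _ _)
    calc i ^ 2 * F.degreeOf n = ∑ ζ ∈ Z, F.degreeOf n := by
          rw [Finset.sum_const, hcard, smul_eq_mul]
      _ ≤ _ := Finset.sum_le_sum fun ζ hζ => degreeOf_le_tr (hne ζ hζ) F n
  obtain ⟨h0, h1⟩ := degreeOf_expand_le hB i
  constructor
  · have := (hdeg 0).trans h0
    rw [pow_two, mul_assoc] at this
    exact Nat.le_of_mul_le_mul_left this hi0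
  · have := (hdeg 1).trans h1
    rw [pow_two, mul_assoc] at this
    exact Nat.le_of_mul_le_mul_left this hi0

end Pool.Agent.N84.RT
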